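import Pool.Agent.H79.BR.Targets

/-! # CTT: weighted energy of an oscillatory integral, Schur test -/

set_option autoImplicit false

namespace Pool.Agent.H86.BR

open MeasureTheory Set
open Pool.Agent.H83.LS Pool.Agent.H79.BR
open scoped ENNReal NNReal ComplexConjugate

theorem en_two_mul (x y : ℝ≥0∞) : 2 * (x * y) ≤ x ^ 2 + y ^ 2 := by
  rcases le_total x y with h | h
  · obtain ⟨c, rfl⟩ := exists_add_of_le h
    calc 2 * (x * (x + c)) ≤ 2 * (x * (x + c)) + c ^ 2 := le_self_add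
      _ = x ^ 2 + (x + c) ^ 2 := by ring
  · obtain ⟨c, rfl⟩ := exists_add_of_le h
    calc 2 * ((y + c) * y) ≤ 2 * ((y + c) * y) + c ^ 2 := le_self_add
      _ = (y + c) ^ 2 + y ^ 2 := by ring

theorem schur {H : Type} [MeasurableSpace H] (ν : Measure H) [SFinite ν] (β : H → ℝ≥0∞)
    (K : H → H → ℝ≥0∞) (S : ℝ≥0∞) (hβ : Measurable β) (hK : Measurable fun z : H × H => K z.1 z.2)
    (hsym : ∀ h h', K h h' = K h' h)
    (hS : ∀ h, β h ≠ 0 → ∫⁻ h' in {h' | β h' ≠ 0}, K h h' ∂ν ≤ S) :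
    ∫⁻ z : H × H, β z.1 * β z.2 * K z.1 z.2 ∂(ν.prod ν) ≤ S * ∫⁻ h, β h ^ 2 ∂ν := by
  have hA : MeasurableSet {h' | β h' ≠ 0} := hβ (measurableSet_singleton 0).compl
  set J : H → H → ℝ≥0∞ := fun h h' => indicator {h' | β h' ≠ 0} (fun h' => K h h') h' with hJ
  have hJm : Measurable fun z : H × H => J z.1 z.2 := by
    have h1 : (fun z : H × H => J z.1 z.2) =
        indicator ((fun z : H × H => z.2) ⁻¹' {h' | β h' ≠ 0}) fun z => K z.1 z.2 := by
      funext z
      by_cases hz : β z.2 ≠ 0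
      · exact (indicator_of_mem (s := {h' | β h' ≠ 0}) hz (fun h' => K z.1 h')).trans
          (indicator_of_mem (s := (fun z : H × H => z.2) ⁻¹' {h' | β h' ≠ 0})
            (f := fun z : H × H => K z.1 z.2) (a := z) hz).symm
      · exact (indicator_of_notMem (s := {h' | β h' ≠ 0}) hz (fun h' => K z.1 h')).trans
          (indicator_of_notMem (s := (fun z : H × H => z.2) ⁻¹' {h' | β h' ≠ 0})
            (f := fun z : H × H => K z.1 z.2) (a := z) hz).symm
    rw [h1]
    exact hK.indicator (measurable_snd hA)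
  have hG : Measurable fun z : H × H => β z.1 ^ 2 * J z.1 z.2 :=
    ((hβ.comp measurable_fst).pow_const 2).mul hJm
  have h1 : ∫⁻ z : H × H, β z.1 ^ 2 * J z.1 z.2 ∂(ν.prod ν) ≤ S * ∫⁻ h, β h ^ 2 ∂ν := by
    rw [lintegral_prod _ hG.aemeasurable, ← lintegral_const_mul _ (hβ.pow_const 2)]
    refine lintegral_mono fun h => ?_
    have h2 : ∫⁻ h', β h ^ 2 * J h h' ∂ν = β h ^ 2 * ∫⁻ h', J h h' ∂ν := by
      refine lintegral_const_mul _ ?_
      have h3 : Measurable fun h' : H => (h, h') := measurable_const.prodMk measurable_id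
      have h4 := hJm.comp h3
      exact h4
    rw [h2, mul_comm]
    by_cases hb : β h = 0
    · rw [hb]
      simp
    · refine mul_le_mul_left ?_ _
      rw [hJ]
      simp only
      rw [lintegral_indicator hA]
      exact hS h hb
  have h2 : ∫⁻ z : H × H, β z.2 ^ 2 * J z.2 z.1 ∂(ν.prod ν) ≤ S * ∫⁻ h, β h ^ 2 ∂ν := by
    have h3 := lintegral_prod_swap (μ := ν) (ν := ν) (fun z : H × H => β z.1 ^ 2 * J z.1 z.2)
    refine le_trans (le_of_eq ?_) h1
    exact h3
  have h3 : 2 * ∫⁻ z : H × H, β z.1 * β z.2 * K z.1 z.2 ∂(ν.prod ν) ≤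
      2 * (S * ∫⁻ h, β h ^ 2 ∂ν) := by
    rw [← lintegral_const_mul' _ _ (by norm_num), two_mul (S * _)]
    refine le_trans ?_ (add_le_add h1 h2)
    rw [← lintegral_add_left hG]
    refine lintegral_mono fun z => ?_
    by_cases hb1 : β z.1 = 0
    · simp [hb1]
    by_cases hb2 : β z.2 = 0
    · simp [hb2]
    have e1 : J z.1 z.2 = K z.1 z.2 := indicator_of_mem (s := {h' | β h' ≠ 0}) hb2 _
    have e2 : J z.2 z.1 = K z.2 z.1 := indicator_of_mem (s := {h' | β h' ≠ 0}) hb1 _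
    simp only [e1, e2]
    rw [hsym z.2 z.1, ← add_mul, ← mul_assoc]
    exact mul_le_mul_left (en_two_mul _ _) _
  exact (ENNReal.mul_le_mul_iff_right (by norm_num) (by norm_num)).mp h3

theorem ct_e_norm (x : ℝ) : ‖e x‖ = 1 := by
  unfold e
  exact Complex.norm_exp_ofReal_mul_I _

theorem ct_e_sub (a b : ℝ) : e (a - b) = e a * conj (e b) := by
  unfold e
  rw [← Complex.exp_conj, ← Complex.exp_add]
  congr 1
  rw [map_mul, Complex.conj_I, Complex.conj_ofReal]
  push_cast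
  ring

theorem ct_e_meas : Measurable e := by
  have : Continuous e := by
    unfold e
    fun_prop
  exact this.measurable

theorem pf_ctt : T_CTT := by
  intro Q H _ _ μ ν _ _ ω φ b W S hω hωm hω0 hφ hb hbi hW hsym hWb hS
  set v : Q → ℂ := fun q => ∫ h, e (φ (q, h)) * b h ∂ν with hv
  have hvm : StronglyMeasurable v := by
    have h1 : Measurable fun z : Q × H => e (φ z) * b z.2 :=
      (ct_e_meas.comp hφ).mul (hb.comp measurable_snd)
    exact h1.stronglyMeasurable.integral_prod_right' (ν := ν)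
  set A : ℝ := ∫ h, ‖b h‖ ∂ν with hA
  have hvA : ∀ q, ‖v q‖ ≤ A := by
    intro q
    refine (norm_integral_le_integral_norm _).trans (le_of_eq ?_)
    refine integral_congr_ae (Filter.Eventually.of_forall fun h => ?_)
    simp only
    rw [norm_mul, ct_e_norm, one_mul]
  have hint : Integrable (fun q => ω q * ‖v q‖ ^ 2) μ := by
    refine Integrable.mul_bdd (c := A ^ 2) hω (hvm.norm.aestronglyMeasurable.pow 2) ?_
    refine Filter.Eventually.of_forall fun q => ?_
    rw [norm_pow, norm_norm]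
    exact pow_le_pow_left₀ (norm_nonneg _) (hvA q) 2
  have hL : ∫⁻ q, ENNReal.ofReal (ω q) * ‖v q‖ₑ ^ 2 ∂μ =
      ENNReal.ofReal (∫ q, ω q * ‖v q‖ ^ 2 ∂μ) := by
    rw [ofReal_integral_eq_lintegral_ofReal hint
      (Filter.Eventually.of_forall fun q => mul_nonneg (hω0 q) (by positivity))]
    refine lintegral_congr fun q => ?_
    rw [ENNReal.ofReal_mul (hω0 q), ENNReal.ofReal_pow (norm_nonneg _), ofReal_norm]
  rw [hL]
  -- the integrand
  have hG1 : Integrable (fun z : H × H => b z.1 * conj (b z.2)) (ν.prod ν) :=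
    hbi.mul_prod (Complex.conjCLE.integrable_comp_iff.mpr hbi)
  have hG2 : Integrable (fun r : Q × (H × H) => ((ω r.1 : ℝ) : ℂ) * (b r.2.1 * conj (b r.2.2)))
      (μ.prod (ν.prod ν)) := hω.ofReal.mul_prod hG1
  have hem : Measurable fun r : Q × (H × H) => e (φ (r.1, r.2.1) - φ (r.1, r.2.2)) := by
    have h1 : Measurable fun r : Q × (H × H) => φ (r.1, r.2.1) :=
      hφ.comp (measurable_fst.prodMk (measurable_fst.comp measurable_snd))
    have h2 : Measurable fun r : Q × (H × H) => φ (r.1, r.2.2) :=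
      hφ.comp (measurable_fst.prodMk (measurable_snd.comp measurable_snd))
    exact ct_e_meas.comp (h1.sub h2)
  have hF : Integrable (fun r : Q × (H × H) => e (φ (r.1, r.2.1) - φ (r.1, r.2.2)) *
      (((ω r.1 : ℝ) : ℂ) * (b r.2.1 * conj (b r.2.2)))) (μ.prod (ν.prod ν)) := by
    refine Integrable.bdd_mul (c := 1) hG2 hem.aestronglyMeasurable ?_
    exact Filter.Eventually.of_forall fun r => (ct_e_norm _).le
  have key : ((∫ q, ω q * ‖v q‖ ^ 2 ∂μ : ℝ) : ℂ) =
      ∫ z : H × H, (∫ q, ((ω q : ℝ) : ℂ) * e (φ (q, z.1) - φ (q, z.2)) ∂μ) *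
        (b z.1 * conj (b z.2)) ∂(ν.prod ν) := by
    have hsw := integral_integral_swap (μ := μ) (ν := ν.prod ν)
      (f := fun q z => e (φ (q, z.1) - φ (q, z.2)) *
        (((ω q : ℝ) : ℂ) * (b z.1 * conj (b z.2)))) hF
    rw [← integral_complex_ofReal]
    have e1 : ∀ q, ∫ z : H × H, e (φ (q, z.1) - φ (q, z.2)) *
        (((ω q : ℝ) : ℂ) * (b z.1 * conj (b z.2))) ∂(ν.prod ν) =
        ((ω q * ‖v q‖ ^ 2 : ℝ) : ℂ) := by
      intro q
      have e2 : ∀ z : H × H, e (φ (q, z.1) - φ (q, z.2)) *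
          (((ω q : ℝ) : ℂ) * (b z.1 * conj (b z.2))) =
          ((ω q : ℝ) : ℂ) * ((e (φ (q, z.1)) * b z.1) * conj (e (φ (q, z.2)) * b z.2)) := by
        intro z
        rw [ct_e_sub, map_mul]
        ring
      rw [integral_congr_ae (Filter.Eventually.of_forall e2), integral_const_mul,
        integral_prod_mul (f := fun h => e (φ (q, h)) * b h)
          (g := fun h => conj (e (φ (q, h)) * b h)), integral_conj]
      push_cast
      rw [← Complex.mul_conj']
    have e3 : ∀ z : H × H, ∫ q, e (φ (q, z.1) - φ (q, z.2)) *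
        (((ω q : ℝ) : ℂ) * (b z.1 * conj (b z.2))) ∂μ =
        (∫ q, ((ω q : ℝ) : ℂ) * e (φ (q, z.1) - φ (q, z.2)) ∂μ) * (b z.1 * conj (b z.2)) := by
      intro z
      rw [← integral_mul_const]
      refine integral_congr_ae (Filter.Eventually.of_forall fun q => ?_)
      simp only
      ring
    rw [← integral_congr_ae (Filter.Eventually.of_forall e1), hsw,
      integral_congr_ae (Filter.Eventually.of_forall e3)]
  have hI0 : 0 ≤ ∫ q, ω q * ‖v q‖ ^ 2 ∂μ :=
    integral_nonneg fun q => mul_nonneg (hω0 q) (by positivity)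
  have h1 : ENNReal.ofReal (∫ q, ω q * ‖v q‖ ^ 2 ∂μ) ≤
      ∫⁻ z : H × H, ‖b z.1‖ₑ * ‖b z.2‖ₑ * ENNReal.ofReal (W z.1 z.2) ∂(ν.prod ν) := by
    have h2 : ENNReal.ofReal (∫ q, ω q * ‖v q‖ ^ 2 ∂μ) =
        ‖((∫ q, ω q * ‖v q‖ ^ 2 ∂μ : ℝ) : ℂ)‖ₑ := by
      rw [← ofReal_norm, Complex.norm_real, Real.norm_of_nonneg hI0]
    rw [h2, key]
    refine (enorm_integral_le_lintegral_enorm _).trans (lintegral_mono fun z => ?_)
    rw [enorm_mul, enorm_mul, mul_comm]
    refine mul_le_mul' (le_of_eq ?_) ?_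
    · congr 1
      rw [← ofReal_norm, ← ofReal_norm, RCLike.norm_conj]
    · rw [← ofReal_norm]
      exact ENNReal.ofReal_le_ofReal (hWb _ _)
  refine h1.trans ?_
  refine schur ν (fun h => ‖b h‖ₑ) (fun h h' => ENNReal.ofReal (W h h')) S hb.enorm
    hW.ennreal_ofReal (fun h h' => by simp only [hsym h h']) ?_
  intro h hh
  have hset : {h' | ‖b h'‖ₑ ≠ 0} = {h' | b h' ≠ 0} := by
    ext h'
    simp
  rw [hset]
  exact hS h (by simpa using hh)

end Pool.Agent.H86.BR
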